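import Pool.Agent.Helper548.DR.C3

namespace Pool.Agent.Helper548.DR

noncomputable def Lam (n : ℕ) : ℝ := √((n : ℝ) * ((n : ℝ) - 1) * ((n : ℝ) + 2))

/-- the pairs of the unit band at `b` -/
noncomputable def band (N : ℕ) (b : ℤ) : Finset (ℕ × ℕ) :=
  ((Finset.Ico N (2 * N)) ×ˢ (Finset.Ico N (2 * N))).filter (fun p => ⌊Lam p.1 + Lam p.2⌋ = b)

lemma Lam_LZ (n : ℕ) : LZ (n : ℤ) = Lam n := by
  unfold LZ Lam; push_cast; rfl

lemma band_Band {N : ℕ} {b : ℤ} {p : ℕ × ℕ} (hp : p ∈ band N b) :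
    Band LZ (N : ℤ) (b : ℝ) ((p.1 : ℤ), (p.2 : ℤ)) := by
  unfold band at hp
  rw [Finset.mem_filter, Finset.mem_product, Finset.mem_Ico, Finset.mem_Ico] at hp
  obtain ⟨⟨⟨h1, h2⟩, ⟨h3, h4⟩⟩, h5⟩ := hp
  rw [Int.floor_eq_iff] at h5
  refine ⟨⟨by simp; omega, by simp; omega⟩, ⟨by simp; omega, by simp; omega⟩, ?_, ?_⟩
  · simp only [Lam_LZ]; exact h5.1
  · simp only [Lam_LZ]; exact h5.2

/-- (C3) windows of length `c N^{1/3}` contain at most `C N^{1/4}` pairs -/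
theorem window : ∃ c C : ℝ, 0 < c ∧ 0 < C ∧ ∀ (N : ℕ) (b : ℤ) (D0 : ℝ), 2 ≤ N →
    (((band N b).filter (fun p => p.1 ≤ p.2 ∧ D0 ≤ (p.2 : ℝ) - p.1 ∧
      (p.2 : ℝ) - p.1 ≤ D0 + c * (N : ℝ) ^ (1 / 3 : ℝ))).card : ℝ) ≤ C * (N : ℝ) ^ (1 / 4 : ℝ) := by
  classical
  refine ⟨1 / 4, 20, by norm_num, by norm_num, ?_⟩
  intro N b D0 hN
  set F := (band N b).filter (fun p => p.1 ≤ p.2 ∧ D0 ≤ (p.2 : ℝ) - p.1 ∧
      (p.2 : ℝ) - p.1 ≤ D0 + 1 / 4 * (N : ℝ) ^ (1 / 3 : ℝ)) with hF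
  have hN1 : (1 : ℝ) ≤ N := by exact_mod_cast (by omega : 1 ≤ N)
  have hroot : (1 : ℝ) ≤ (N : ℝ) ^ (1 / 4 : ℝ) := Real.one_le_rpow hN1 (by norm_num)
  rcases hN.eq_or_lt with h2 | h3
  · -- N = 2
    have : F.card ≤ 4 := by
      refine (Finset.card_filter_le _ _).trans ((Finset.card_filter_le _ _).trans ?_)
      rw [← h2, Finset.card_product]; simp
    have : (F.card : ℝ) ≤ 4 := by exact_mod_cast this
    linarith
  · have h3r : (3 : ℝ) ≤ N := by exact_mod_cast h3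
    have H := conv_LZ (N : ℤ) (by exact_mod_cast h3)
    have hcast : (((N : ℤ) : ℝ)) = (N : ℝ) := by push_cast; rfl
    rw [hcast] at H
    have hs : 0 < √(N : ℝ) := Real.sqrt_pos.2 (by linarith)
    have hss : √(N : ℝ) ^ 2 = N := Real.sq_sqrt (by linarith)
    set l : ℝ := 1 / 4 * (N : ℝ) ^ (1 / 3 : ℝ) with hl
    have hr0 : 0 ≤ (N : ℝ) ^ (1 / 3 : ℝ) := by positivity
    have hl0 : 0 ≤ l := by positivity
    have hl3 : l ^ 3 = N / 64 := by
      rw [hl, mul_pow, ← Real.rpow_natCast ((N : ℝ) ^ (1 / 3 : ℝ)) 3, ← Real.rpow_mul (by linarith)]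
      norm_num
      ring
    have hls : (N : ℝ) ^ (1 / 3 : ℝ) ≤ √(N : ℝ) := by
      rw [Real.sqrt_eq_rpow]
      exact Real.rpow_le_rpow_of_exponent_le hN1 (by norm_num)
    have hsmall : 2 * l * (1 + 2 * (4 / √(N : ℝ)) * l ^ 2) < √(N : ℝ) := by
      have e1 : 2 * l * (1 + 2 * (4 / √(N : ℝ)) * l ^ 2) = 2 * l + 16 * l ^ 3 / √(N : ℝ) := by
        field_simp
        ring
      have e2 : 16 * l ^ 3 / √(N : ℝ) = 1 / 4 * √(N : ℝ) := by
        rw [hl3, div_eq_iff hs.ne']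
        nlinarith
      rw [e1, e2]
      have : 2 * l = 1 / 2 * (N : ℝ) ^ (1 / 3 : ℝ) := by rw [hl]; ring
      rw [this]
      linarith
    set T := F.image (fun p => (((p.1 : ℤ), (p.2 : ℤ)) : ℤ × ℤ)) with hT
    have hTc : T.card = F.card := by
      apply Finset.card_image_of_injective
      intro p q h
      simp only [Prod.mk.injEq, Nat.cast_inj] at h
      exact Prod.ext h.1 h.2
    have hmem : ∀ p ∈ T, Band LZ (N : ℤ) (b : ℝ) p := by
      intro p hp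
      obtain ⟨q, hq, rfl⟩ := Finset.mem_image.1 hp
      exact band_Band (Finset.mem_filter.1 hq).1
    have hwin : ∀ p ∈ T, ∀ q ∈ T, (((q.1 - q.2) - (p.1 - p.2) : ℤ) : ℝ) ≤ l := by
      intro p hp q hq
      obtain ⟨p', hp', rfl⟩ := Finset.mem_image.1 hp
      obtain ⟨q', hq', rfl⟩ := Finset.mem_image.1 hq
      have a1 := (Finset.mem_filter.1 hp').2
      have a2 := (Finset.mem_filter.1 hq').2
      push_cast
      linarith [a1.2.2, a2.2.1]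
    have hcard := window_card H hl0 (by positivity) hsmall T hmem hwin
    rw [hTc] at hcard
    have h4 : √(4 / (1 / (20 * √(N : ℝ)))) ≤ 9 * (N : ℝ) ^ (1 / 4 : ℝ) := by
      rw [Real.sqrt_le_left (by positivity), mul_pow,
        ← Real.rpow_natCast ((N : ℝ) ^ (1 / 4 : ℝ)) 2, ← Real.rpow_mul (by linarith)]
      have e3 : (N : ℝ) ^ ((1 / 4 : ℝ) * ((2 : ℕ) : ℝ)) = √(N : ℝ) := by
        rw [Real.sqrt_eq_rpow]; norm_num
      rw [e3]
      have : 4 / (1 / (20 * √(N : ℝ))) = 80 * √(N : ℝ) := by field_simp; ring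
      rw [this]
      nlinarith
    linarith

end Pool.Agent.Helper548.DR
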