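import Pool.Agent.Helper548.DR.W2b
import Pool.Agent.Helper548.DR.N6

namespace Pool.Agent.Helper548.DR

/-- sharp window count: windows of length `√N` contain at most `C N^{1/4}` pairs of the band -/
theorem window2 : ∃ C : ℝ, 0 < C ∧ ∀ (N : ℕ) (b : ℤ) (D0 : ℝ), 2 ≤ N →
    (((band N b).filter (fun p => p.1 ≤ p.2 ∧ D0 ≤ (p.2 : ℝ) - p.1 ∧
      (p.2 : ℝ) - p.1 ≤ D0 + √N)).card : ℝ) ≤ C * (N : ℝ) ^ (1 / 4 : ℝ) := by
  classical
  refine ⟨2000, by norm_num, ?_⟩
  intro N b D0 hN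
  set F := (band N b).filter (fun p => p.1 ≤ p.2 ∧ D0 ≤ (p.2 : ℝ) - p.1 ∧
      (p.2 : ℝ) - p.1 ≤ D0 + √N) with hF
  have hN1 : (1 : ℝ) ≤ N := by exact_mod_cast (by omega : 1 ≤ N)
  set R : ℝ := (N : ℝ) ^ (1 / 4 : ℝ) with hRdef
  have hroot : (1 : ℝ) ≤ R := Real.one_le_rpow hN1 (by norm_num)
  have hR2 : R ^ 2 = √(N : ℝ) := by
    rw [hRdef, ← Real.rpow_natCast ((N : ℝ) ^ (1 / 4 : ℝ)) 2, ← Real.rpow_mul (by linarith),
      Real.sqrt_eq_rpow]
    norm_num
  rcases hN.eq_or_lt with h2 | h3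
  · -- N = 2
    have : F.card ≤ 4 := by
      refine (Finset.card_filter_le _ _).trans ((Finset.card_filter_le _ _).trans ?_)
      rw [← h2, Finset.card_product]; simp
    have : (F.card : ℝ) ≤ 4 := by exact_mod_cast this
    linarith
  · have h3r : (3 : ℝ) ≤ N := by exact_mod_cast h3
    have H := conv_LZ (N : ℤ) (by exact_mod_cast h3)
    have hcast : (((N : ℤ) : ℝ)) = (N : ℝ) := by push_cast; rfl
    rw [hcast] at H
    have hs : 0 < √(N : ℝ) := Real.sqrt_pos.2 (by linarith)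
    set T := F.image (fun p => (((p.1 : ℤ), (p.2 : ℤ)) : ℤ × ℤ)) with hT
    have hTc : T.card = F.card := by
      apply Finset.card_image_of_injective
      intro p q h
      simp only [Prod.mk.injEq, Nat.cast_inj] at h
      exact Prod.ext h.1 h.2
    have hmem : ∀ p ∈ T, Band LZ (N : ℤ) (b : ℝ) p := by
      intro p hp
      obtain ⟨q, hq, rfl⟩ := Finset.mem_image.1 hp
      exact band_Band (Finset.mem_filter.1 hq).1
    have hord : ∀ p ∈ T, p.1 ≤ p.2 := by
      intro p hp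
      obtain ⟨q, hq, rfl⟩ := Finset.mem_image.1 hp
      have := (Finset.mem_filter.1 hq).2.1
      show (q.1 : ℤ) ≤ (q.2 : ℤ)
      exact_mod_cast this
    have hwin : ∀ p ∈ T, ∀ q ∈ T, (((q.1 - q.2) - (p.1 - p.2) : ℤ) : ℝ) ≤ R ^ 2 := by
      intro p hp q hq
      obtain ⟨p', hp', rfl⟩ := Finset.mem_image.1 hp
      obtain ⟨q', hq', rfl⟩ := Finset.mem_image.1 hq
      have a1 := (Finset.mem_filter.1 hp').2
      have a2 := (Finset.mem_filter.1 hq').2
      rw [hR2]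
      push_cast
      linarith [a1.2.2, a2.2.1]
    have h4 : √(4 / (1 / (20 * √(N : ℝ)))) ≤ 9 * R := by
      rw [Real.sqrt_le_left (by positivity), mul_pow, hR2]
      have : 4 / (1 / (20 * √(N : ℝ))) = 80 * √(N : ℝ) := by field_simp; ring
      rw [this]
      nlinarith
    have hA : 4 / √(N : ℝ) * R ^ 2 ≤ 4 := by
      rw [hR2, div_mul_cancel₀ _ hs.ne']
    have hcard := window2_core H hroot (by positivity) hA (le_of_eq hR2) h4 T hmem hord hwin
    rw [hTc] at hcard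
    exact hcard

end Pool.Agent.Helper548.DR
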