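import Mathlib

/-! Lattice points in a unit band of a convex function (module C of the droplet project). -/

namespace Pool.Agent.Helper548.DR

/-- discrete convexity data on `[N, 2N]` -/
structure Conv (L : ℤ → ℝ) (N : ℤ) (a A g : ℝ) : Prop where
  ha : 0 < a
  hg : 1 ≤ g
  first : ∀ j, N ≤ j → j ≤ 2 * N → g ≤ L (j + 1) - L j
  low : ∀ j, N ≤ j → j ≤ 2 * N → a ≤ (L (j + 2) - L (j + 1)) - (L (j + 1) - L j)
  up : ∀ j, N ≤ j → j ≤ 2 * N → (L (j + 2) - L (j + 1)) - (L (j + 1) - L j) ≤ A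

variable {L : ℤ → ℝ} {N : ℤ} {a A g : ℝ}

/-- first difference -/
def d (L : ℤ → ℝ) (j : ℤ) : ℝ := L (j + 1) - L j

lemma d_diff (H : Conv L N a A g) (x : ℤ) (k : ℕ) (h0 : N ≤ x) (h1 : x + k ≤ 2 * N + 1) :
    a * k ≤ d L (x + k) - d L x ∧ d L (x + k) - d L x ≤ A * k := by
  induction k with
  | zero => simp
  | succ k ih =>
    push_cast at h1
    obtain ⟨i1, i2⟩ := ih (by omega)
    have e1 := H.low (x + k) (by omega) (by omega)
    have e2 := H.up (x + k) (by omega) (by omega)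
    have e3 : x + ((k + 1 : ℕ) : ℤ) = x + k + 1 := by push_cast; ring
    rw [e3]
    have e4 : x + (k : ℤ) + 1 + 1 = x + k + 2 := by ring
    unfold d at *
    rw [e4]
    push_cast
    constructor <;> linarith

lemma quad_up (H : Conv L N a A g) (x : ℤ) (k : ℕ) (h0 : N ≤ x) (h1 : x + k ≤ 2 * N + 2) :
    a / 2 * (k * (k - 1)) ≤ L (x + k) - L x - k * d L x ∧
      L (x + k) - L x - k * d L x ≤ A / 2 * (k * (k - 1)) := by
  induction k with
  | zero => simp
  | succ k ih =>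
    push_cast at h1
    obtain ⟨i1, i2⟩ := ih (by omega)
    obtain ⟨j1, j2⟩ := d_diff H x k h0 (by omega)
    have e3 : x + ((k + 1 : ℕ) : ℤ) = x + k + 1 := by push_cast; ring
    have e5 : L (x + k + 1) = L (x + k) + d L (x + k) := by unfold d; ring
    rw [e3, e5]
    push_cast
    constructor <;> nlinarith

lemma quad_down (H : Conv L N a A g) (x : ℤ) (k : ℕ) (h0 : N ≤ x - k) (h1 : x ≤ 2 * N + 1) :
    a / 2 * (k * (k + 1)) ≤ L (x - k) - L x + k * d L x ∧
      L (x - k) - L x + k * d L x ≤ A / 2 * (k * (k + 1)) := by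
  induction k with
  | zero => simp
  | succ k ih =>
    push_cast at h0
    obtain ⟨i1, i2⟩ := ih (by omega)
    obtain ⟨j1, j2⟩ := d_diff H (x - (k + 1)) (k + 1) (by omega) (by push_cast; omega)
    have e3 : x - ((k + 1 : ℕ) : ℤ) = x - (k + 1) := by push_cast; ring
    have e4 : x - ((k : ℤ) + 1) + ((k + 1 : ℕ) : ℤ) = x := by push_cast; ring
    rw [e4] at j1 j2
    have e5 : L (x - k) = L (x - (k + 1)) + d L (x - (k + 1)) := by
      unfold d
      have : x - ((k : ℤ) + 1) + 1 = x - k := by ring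
      rw [this]; ring
    rw [e5] at i1 i2
    rw [e3]
    push_cast at *
    constructor <;> nlinarith

/-- quadratic control around every base point -/
lemma quad (H : Conv L N a A g) (x u : ℤ) (h0 : N ≤ x) (h1 : x ≤ 2 * N) (h2 : N ≤ x + u)
    (h3 : x + u ≤ 2 * N) :
    a / 2 * (u * (u - 1)) ≤ L (x + u) - L x - u * d L x ∧
      L (x + u) - L x - u * d L x ≤ A / 2 * (u * (u - 1)) := by
  obtain ⟨k, rfl | rfl⟩ := u.eq_nat_or_neg
  · have := quad_up H x k h0 (by omega)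
    push_cast; exact this
  · have := quad_down H x k (by omega) (by omega)
    have e : x + -(k : ℤ) = x - k := by ring
    rw [e]
    push_cast
    constructor
    · have := this.1; linarith
    · have := this.2; linarith

lemma strictMono_L (H : Conv L N a A g) (x y : ℤ) (h0 : N ≤ x) (hxy : x ≤ y) (h1 : y ≤ 2 * N) :
    (y - x : ℝ) * g ≤ L y - L x := by
  obtain ⟨k, rfl⟩ := Int.le.dest hxy
  induction k with
  | zero => simp
  | succ k ih =>
    push_cast at *
    have i1 := ih (by omega) (by omega)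
    have e1 := H.first (x + k) (by omega) (by omega)
    have e3 : x + ((k : ℤ) + 1) = x + k + 1 := by ring
    rw [e3]
    have : ((x : ℝ) + k - x) * g ≤ L (x + k) - L x := by exact_mod_cast i1
    linarith

/-- the band -/
def Band (L : ℤ → ℝ) (N : ℤ) (b : ℝ) (p : ℤ × ℤ) : Prop :=
  (N ≤ p.1 ∧ p.1 < 2 * N) ∧ (N ≤ p.2 ∧ p.2 < 2 * N) ∧ b ≤ L p.1 + L p.2 ∧ L p.1 + L p.2 < b + 1

lemma band_mono (H : Conv L N a A g) {b : ℝ} {p q : ℤ × ℤ} (hp : Band L N b p)
    (hq : Band L N b q) (h1 : p.1 ≤ q.1) (h2 : p.2 ≤ q.2) : p = q := by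
  have m1 := strictMono_L H p.1 q.1 hp.1.1 h1 (by have := hq.1.2; omega)
  have m2 := strictMono_L H p.2 q.2 hp.2.1.1 h2 (by have := hq.2.1.2; omega)
  have b1 := hp.2.2.1
  have b2 := hq.2.2.2
  have g1 := H.hg
  have k1 : (0 : ℝ) ≤ (q.1 : ℝ) - p.1 := by
    have : (p.1 : ℝ) ≤ q.1 := by exact_mod_cast h1
    linarith
  have k2 : (0 : ℝ) ≤ (q.2 : ℝ) - p.2 := by
    have : (p.2 : ℝ) ≤ q.2 := by exact_mod_cast h2
    linarith
  have k3 : ((q.1 : ℝ) - p.1) + (q.2 - p.2) < 1 := by nlinarith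
  have k4 : ((q.1 - p.1) + (q.2 - p.2) : ℤ) < 1 := by exact_mod_cast k3
  ext <;> omega

/-- (C1) at most one point on every line `n - m = D` -/
lemma band_diff (H : Conv L N a A g) {b : ℝ} {p q : ℤ × ℤ} (hp : Band L N b p)
    (hq : Band L N b q) (h : p.1 - p.2 = q.1 - q.2) : p = q := by
  rcases le_total p.1 q.1 with h1 | h1
  · exact band_mono H hp hq h1 (by omega)
  · exact (band_mono H hq hp h1 (by omega)).symm

/-- two different points of the band: opposite signs -/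
lemma band_opp (H : Conv L N a A g) {b : ℝ} {p q : ℤ × ℤ} (hp : Band L N b p)
    (hq : Band L N b q) (h : p.1 < q.1) : q.2 < p.2 := by
  by_contra hc
  push Not at hc
  have := band_mono H hp hq h.le hc
  rw [this] at h
  exact lt_irrefl _ h

lemma band_fst_inj (H : Conv L N a A g) {b : ℝ} {p q : ℤ × ℤ} (hp : Band L N b p)
    (hq : Band L N b q) (h : p.1 = q.1) : p = q := by
  rcases le_total p.2 q.2 with h1 | h1
  · exact band_mono H hp hq h.le h1
  · exact (band_mono H hq hp h.ge h1).symm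

/-- three collinear points of the band, in order -/
lemma band_col (H : Conv L N a A g) {b : ℝ} {p q r : ℤ × ℤ} (hp : Band L N b p)
    (hq : Band L N b q) (hr : Band L N b r) (h1 : p.1 < q.1) (h2 : q.1 < r.1)
    (hc : (p.1 - q.1) * (r.2 - q.2) = (r.1 - q.1) * (p.2 - q.2)) :
    a * (((q.1 - p.1 : ℤ) : ℝ) * ((r.1 - q.1 : ℤ) : ℝ)) ≤ 4 := by
  have o1 := band_opp H hp hq h1
  have o2 := band_opp H hq hr h2
  set u1 : ℤ := p.1 - q.1 with hu1
  set u3 : ℤ := r.1 - q.1 with hu3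
  set v1 : ℤ := p.2 - q.2 with hv1
  set v3 : ℤ := r.2 - q.2 with hv3
  have E1 := quad H q.1 u1 hq.1.1 (by have := hq.1.2; omega) (by have := hp.1.1; omega)
    (by have := hp.1.2; omega)
  have F1 := quad H q.2 v1 hq.2.1.1 (by have := hq.2.1.2; omega) (by have := hp.2.1.1; omega)
    (by have := hp.2.1.2; omega)
  have E3 := quad H q.1 u3 hq.1.1 (by have := hq.1.2; omega) (by have := hr.1.1; omega)
    (by have := hr.1.2; omega)
  have F3 := quad H q.2 v3 hq.2.1.1 (by have := hq.2.1.2; omega) (by have := hr.2.1.1; omega)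
    (by have := hr.2.1.2; omega)
  have r1 : q.1 + u1 = p.1 := by omega
  have r2 : q.2 + v1 = p.2 := by omega
  have r3 : q.1 + u3 = r.1 := by omega
  have r4 : q.2 + v3 = r.2 := by omega
  rw [r1] at E1
  rw [r2] at F1
  rw [r3] at E3
  rw [r4] at F3
  set α := d L q.1
  set β := d L q.2
  have bp := hp.2.2.2
  have br := hr.2.2.2
  have bq := hq.2.2.1
  -- integer facts
  have i1 : u1 ≤ -1 := by omega
  have i3 : 1 ≤ u3 := by omega
  have j1 : 1 ≤ v1 := by omega
  have j3 : v3 ≤ -1 := by omega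
  have q1 : (u1 : ℝ) ^ 2 / 2 ≤ u1 * (u1 - 1) + v1 * (v1 - 1) := by
    have : (u1 : ℤ) ^ 2 ≤ 2 * (u1 * (u1 - 1) + v1 * (v1 - 1)) := by nlinarith
    have : ((u1 : ℤ) : ℝ) ^ 2 ≤ 2 * (u1 * (u1 - 1) + v1 * (v1 - 1)) := by exact_mod_cast this
    linarith
  have q3 : (u3 : ℝ) ^ 2 / 2 ≤ u3 * (u3 - 1) + v3 * (v3 - 1) := by
    have : (u3 : ℤ) ^ 2 ≤ 2 * (u3 * (u3 - 1) + v3 * (v3 - 1)) := by
      rcases eq_or_lt_of_le i3 with h | h
      · rw [← h]; nlinarith
      · nlinarith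
    have : ((u3 : ℤ) : ℝ) ^ 2 ≤ 2 * (u3 * (u3 - 1) + v3 * (v3 - 1)) := by exact_mod_cast this
    linarith
  have ha := H.ha
  have s1 : u1 * α + v1 * β + a / 4 * (u1 : ℝ) ^ 2 ≤ 1 := by
    have := mul_le_mul_of_nonneg_left q1 (by positivity : (0 : ℝ) ≤ a / 2)
    linarith [E1.1, F1.1]
  have s3 : u3 * α + v3 * β + a / 4 * (u3 : ℝ) ^ 2 ≤ 1 := by
    have := mul_le_mul_of_nonneg_left q3 (by positivity : (0 : ℝ) ≤ a / 2)
    linarith [E3.1, F3.1]
  have hc' : (u1 : ℝ) * v3 = u3 * v1 := by exact_mod_cast hc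
  have p1 : (0 : ℝ) < -u1 := by
    have : (u1 : ℝ) ≤ -1 := by exact_mod_cast i1
    linarith
  have p3 : (0 : ℝ) < u3 := by
    have : (1 : ℝ) ≤ u3 := by exact_mod_cast i3
    linarith
  have t1 := mul_le_mul_of_nonneg_left s1 p3.le
  have t3 := mul_le_mul_of_nonneg_left s3 p1.le
  have t4 : a / 4 * ((-u1) * u3 * (u3 + -u1)) ≤ u3 + -u1 := by
    have : (u3 : ℝ) * (u1 * α + v1 * β + a / 4 * (u1 : ℝ) ^ 2) +
        -u1 * (u3 * α + v3 * β + a / 4 * (u3 : ℝ) ^ 2) =
        a / 4 * ((-u1) * u3 * (u3 + -u1)) + β * (u3 * v1 - u1 * v3) := by ring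
    rw [hc', sub_self, mul_zero, add_zero] at this
    linarith
  have t5 : a / 4 * ((-u1) * u3) ≤ 1 := by
    have hpos : (0 : ℝ) < u3 + -u1 := by linarith
    by_contra hcon
    push Not at hcon
    have := mul_lt_mul_of_pos_right hcon hpos
    linarith
  have e1 : ((q.1 - p.1 : ℤ) : ℝ) = -u1 := by rw [hu1]; push_cast; ring
  rw [e1]
  linarith

end Pool.Agent.Helper548.DR
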