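import Pool.Agent.Helper548.DR.C1

namespace Pool.Agent.Helper548.DR

/-- the symbol on the integers -/
noncomputable def LZ (j : ℤ) : ℝ := √((j : ℝ) * ((j : ℝ) - 1) * ((j : ℝ) + 2))

lemma first_real (N j : ℝ) (h3 : 3 ≤ N) (hj : N ≤ j) :
    √N ≤ √((j + 1) * ((j + 1) - 1) * ((j + 1) + 2)) - √(j * (j - 1) * (j + 2)) := by
  set P := √(j * (j - 1) * (j + 2)) with hP
  have hp0 : 0 ≤ j * (j - 1) * (j + 2) := by
    have : 0 ≤ j * (j - 1) := by nlinarith
    exact mul_nonneg this (by linarith)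
  have hPs : P ^ 2 = j * (j - 1) * (j + 2) := Real.sq_sqrt hp0
  have hP0 : 0 ≤ P := Real.sqrt_nonneg _
  have hN0 : 0 ≤ √N := Real.sqrt_nonneg _
  have hNs : √N ^ 2 = N := Real.sq_sqrt (by linarith)
  have key : √N * P ≤ j ^ 2 + j / 2 := by
    apply abs_le_of_sq_le_sq' _ (by nlinarith : (0:ℝ) ≤ j ^ 2 + j / 2) |>.2
    rw [mul_pow, hNs, hPs]
    have : N * (j * (j - 1) * (j + 2)) ≤ j * (j * (j - 1) * (j + 2)) :=
      mul_le_mul_of_nonneg_right hj hp0
    nlinarith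
  have : P + √N ≤ √((j + 1) * ((j + 1) - 1) * ((j + 1) + 2)) := by
    apply Real.le_sqrt_of_sq_le
    have : (P + √N) ^ 2 = P ^ 2 + 2 * (√N * P) + √N ^ 2 := by ring
    rw [this, hPs, hNs]
    nlinarith
  linarith

lemma second_real (i : ℝ) (h3 : 3 ≤ i) :
    2 * i ≤ (√((i + 1) * ((i + 1) - 1) * ((i + 1) + 2)) + √((i - 1) * ((i - 1) - 1) * ((i - 1) + 2))
        - 2 * √(i * (i - 1) * (i + 2))) *
      (√((i + 1) * ((i + 1) - 1) * ((i + 1) + 2)) + √((i - 1) * ((i - 1) - 1) * ((i - 1) + 2))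
        + 2 * √(i * (i - 1) * (i + 2))) ∧
    (√((i + 1) * ((i + 1) - 1) * ((i + 1) + 2)) + √((i - 1) * ((i - 1) - 1) * ((i - 1) + 2))
        - 2 * √(i * (i - 1) * (i + 2))) *
      (√((i + 1) * ((i + 1) - 1) * ((i + 1) + 2)) + √((i - 1) * ((i - 1) - 1) * ((i - 1) + 2))
        + 2 * √(i * (i - 1) * (i + 2))) ≤ 6 * i + 2 := by
  set a := (i + 1) * ((i + 1) - 1) * ((i + 1) + 2) with ha
  set b := (i - 1) * ((i - 1) - 1) * ((i - 1) + 2) with hb
  set c := i * (i - 1) * (i + 2) with hc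
  have ha0 : 0 ≤ a := by
    have : 0 ≤ (i + 1) * ((i + 1) - 1) := by nlinarith
    rw [ha]; exact mul_nonneg this (by linarith)
  have hb0 : 0 ≤ b := by
    have h1 : 0 ≤ (i - 1) * ((i - 1) - 1) := by nlinarith
    rw [hb]; exact mul_nonneg h1 (by linarith)
  have hc0 : 0 ≤ c := by
    have h1 : 0 ≤ i * (i - 1) := by nlinarith
    rw [hc]; exact mul_nonneg h1 (by linarith)
  have hA := Real.sq_sqrt ha0
  have hB := Real.sq_sqrt hb0
  have hC := Real.sq_sqrt hc0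
  have e1 : (√a + √b - 2 * √c) * (√a + √b + 2 * √c) =
      a + b - 4 * c + 2 * (√a * √b) := by
    calc (√a + √b - 2 * √c) * (√a + √b + 2 * √c)
        = √a ^ 2 + √b ^ 2 - 4 * √c ^ 2 + 2 * (√a * √b) := by ring
      _ = _ := by rw [hA, hB, hC]
  rw [e1, ← Real.sqrt_mul ha0]
  have hab : a + b = 2 * c + (6 * i + 2) := by rw [ha, hb, hc]; ring
  have hprod : a * b = c ^ 2 - (3 * i ^ 4 + 4 * i ^ 3 - i ^ 2 - 6 * i) := by
    rw [ha, hb, hc]; ring
  have hcval : c = i ^ 3 + i ^ 2 - 2 * i := by rw [hc]; ring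
  have i2 : 9 ≤ i ^ 2 := by nlinarith
  have i3 : 3 * i ^ 2 ≤ i ^ 3 := by nlinarith
  have i4 : 3 * i ^ 3 ≤ i ^ 4 := by nlinarith
  constructor
  · have : c - 2 * i - 1 ≤ √(a * b) := by
      apply Real.le_sqrt_of_sq_le
      rw [hprod, hcval]
      nlinarith
    linarith
  · have : √(a * b) ≤ c := by
      rw [Real.sqrt_le_left hc0, hprod]
      nlinarith
    linarith

lemma sqrt_cube (x : ℝ) (hx : 0 ≤ x) : √(x ^ 3) = x * √x := by
  have : x ^ 3 = x ^ 2 * x := by ring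
  rw [this, Real.sqrt_mul (by positivity), Real.sqrt_sq hx]

lemma conv_LZ (N : ℤ) (hN : 3 ≤ N) : Conv LZ N (1 / (20 * √N)) (4 / √N) (√N) := by
  have hNr : (3 : ℝ) ≤ N := by exact_mod_cast hN
  have hs : 0 < √(N : ℝ) := Real.sqrt_pos.2 (by linarith)
  have hss : √(N : ℝ) ^ 2 = N := Real.sq_sqrt (by linarith)
  -- second differences
  have key : ∀ j : ℤ, N ≤ j → j ≤ 2 * N →
      1 / (20 * √(N : ℝ)) ≤ (LZ (j + 2) - LZ (j + 1)) - (LZ (j + 1) - LZ j) ∧
      (LZ (j + 2) - LZ (j + 1)) - (LZ (j + 1) - LZ j) ≤ 4 / √(N : ℝ) := by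
    intro j h0 h1
    have h0r : (N : ℝ) ≤ j := by exact_mod_cast h0
    have h1r : (j : ℝ) ≤ 2 * N := by exact_mod_cast h1
    obtain ⟨k1, k2⟩ := second_real ((j : ℝ) + 1) (by linarith)
    have e0 : LZ j = √((((j : ℝ) + 1) - 1) * ((((j : ℝ) + 1) - 1) - 1) * ((((j : ℝ) + 1) - 1) + 2)) := by
      unfold LZ; congr 1; ring
    have e1 : LZ (j + 1) = √(((j : ℝ) + 1) * (((j : ℝ) + 1) - 1) * (((j : ℝ) + 1) + 2)) := by
      unfold LZ; push_cast; rfl
    have e2 : LZ (j + 2) = √((((j : ℝ) + 1) + 1) * ((((j : ℝ) + 1) + 1) - 1) * ((((j : ℝ) + 1) + 1) + 2)) := by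
      unfold LZ; push_cast; congr 1; ring
    rw [← e0, ← e1, ← e2] at k1 k2
    set X := LZ (j + 2) + LZ j - 2 * LZ (j + 1) with hX
    set Y := LZ (j + 2) + LZ j + 2 * LZ (j + 1) with hY
    -- bounds for the denominators
    have up : ∀ t : ℤ, N ≤ t → t ≤ 2 * N + 2 → LZ t ≤ 6 * (N * √(N : ℝ)) := by
      intro t ht0 ht1
      have t0 : (N : ℝ) ≤ t := by exact_mod_cast ht0
      have t1 : (t : ℝ) ≤ 2 * N + 2 := by exact_mod_cast ht1
      have : LZ t ≤ √((3 * (N : ℝ)) ^ 3) := by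
        unfold LZ
        apply Real.sqrt_le_sqrt
        have q0 : (t : ℝ) ≤ 8 / 3 * N := by linarith
        have q1 : (t : ℝ) * ((t : ℝ) - 1) * ((t : ℝ) + 2) ≤ t ^ 3 + t ^ 2 := by nlinarith
        have q2 : (t : ℝ) ^ 2 ≤ (8 / 3 * N) ^ 2 := by
          apply pow_le_pow_left₀ (by linarith) q0
        have q3 : (t : ℝ) ^ 3 ≤ (8 / 3 * N) ^ 3 := by
          apply pow_le_pow_left₀ (by linarith) q0
        have q4 : 3 * (N : ℝ) ^ 2 ≤ N ^ 3 := by nlinarith [sq_nonneg (N : ℝ)]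
        nlinarith [sq_nonneg (N : ℝ)]
      rw [sqrt_cube _ (by linarith)] at this
      have s3 : √(3 * (N : ℝ)) ≤ 2 * √(N : ℝ) := by
        rw [Real.sqrt_le_left (by positivity), mul_pow, hss]; linarith
      calc LZ t ≤ 3 * N * √(3 * (N : ℝ)) := this
        _ ≤ 3 * N * (2 * √(N : ℝ)) := mul_le_mul_of_nonneg_left s3 (by linarith)
        _ = _ := by ring
    have lo : ∀ t : ℤ, N ≤ t → N * √(N : ℝ) ≤ LZ t := by
      intro t ht0
      have t0 : (N : ℝ) ≤ t := by exact_mod_cast ht0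
      rw [← sqrt_cube _ (by linarith)]
      unfold LZ
      apply Real.sqrt_le_sqrt
      have q3 : (N : ℝ) ^ 3 ≤ (t : ℝ) ^ 3 := pow_le_pow_left₀ (by linarith) t0 3
      nlinarith
    have u0 := up j h0 (by omega)
    have u1 := up (j + 1) (by omega) (by omega)
    have u2 := up (j + 2) (by omega) (by omega)
    have l0 := lo j h0
    have l1 := lo (j + 1) (by omega)
    have l2 := lo (j + 2) (by omega)
    have hNN : 0 < (N : ℝ) * √(N : ℝ) := by positivity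
    have Ypos : 0 < Y := by rw [hY]; linarith
    have Yup : Y ≤ 24 * (N * √(N : ℝ)) := by rw [hY]; linarith
    have Ylo : 4 * (N * √(N : ℝ)) ≤ Y := by rw [hY]; linarith
    have goalX : (LZ (j + 2) - LZ (j + 1)) - (LZ (j + 1) - LZ j) = X := by rw [hX]; ring
    rw [goalX]
    have Xpos : 0 < X := by
      by_contra hcon
      push Not at hcon
      have : X * Y ≤ 0 := mul_nonpos_of_nonpos_of_nonneg hcon Ypos.le
      linarith
    constructor
    · rw [div_le_iff₀ (by positivity)]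
      have h5 : 2 * ((j : ℝ) + 1) ≤ X * (24 * (N * √(N : ℝ))) :=
        k1.trans (mul_le_mul_of_nonneg_left Yup Xpos.le)
      have h6 : (N : ℝ) * 2 ≤ (N : ℝ) * (24 * (X * √(N : ℝ))) := by nlinarith
      have h7 : 2 ≤ 24 * (X * √(N : ℝ)) := le_of_mul_le_mul_left h6 (by linarith)
      nlinarith
    · rw [le_div_iff₀ hs]
      have h5 : X * (4 * (N * √(N : ℝ))) ≤ 6 * ((j : ℝ) + 1) + 2 :=
        (mul_le_mul_of_nonneg_left Ylo Xpos.le).trans k2
      have h6 : (N : ℝ) * (4 * (X * √(N : ℝ))) ≤ (N : ℝ) * 16 := by nlinarith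
      have h7 := le_of_mul_le_mul_left h6 (by linarith : (0 : ℝ) < N)
      linarith
  refine ⟨by positivity, ?_, ?_, fun j h0 h1 => (key j h0 h1).1, fun j h0 h1 => (key j h0 h1).2⟩
  · exact Real.one_le_sqrt.2 (by linarith)
  · intro j h0 h1
    have h0r : (N : ℝ) ≤ j := by exact_mod_cast h0
    have := first_real N j hNr h0r
    unfold LZ
    push_cast
    exact this

end Pool.Agent.Helper548.DR
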