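import Pool.Agent.Helper548.DR.C2

namespace Pool.Agent.Helper548.DR

variable {L : ℤ → ℝ} {N : ℤ} {a A g : ℝ}

/-- three points of the band close to each other are collinear -/
lemma band_det (H : Conv L N a A g) {b : ℝ} {l : ℝ} (hl : 0 ≤ l) (hA : 0 ≤ A)
    (hsmall : 2 * l * (1 + 2 * A * l ^ 2) < g)
    {p q r : ℤ × ℤ} (hp : Band L N b p) (hq : Band L N b q) (hr : Band L N b r)
    (b1 : |((q.1 - p.1 : ℤ) : ℝ)| ≤ l) (b2 : |((q.2 - p.2 : ℤ) : ℝ)| ≤ l)
    (b3 : |((r.1 - p.1 : ℤ) : ℝ)| ≤ l) (b4 : |((r.2 - p.2 : ℤ) : ℝ)| ≤ l) :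
    (q.1 - p.1) * (r.2 - p.2) = (r.1 - p.1) * (q.2 - p.2) := by
  set u2 : ℤ := q.1 - p.1 with hu2
  set u3 : ℤ := r.1 - p.1 with hu3
  set v2 : ℤ := q.2 - p.2 with hv2
  set v3 : ℤ := r.2 - p.2 with hv3
  have E2 := quad H p.1 u2 hp.1.1 (by have := hp.1.2; omega) (by have := hq.1.1; omega)
    (by have := hq.1.2; omega)
  have F2 := quad H p.2 v2 hp.2.1.1 (by have := hp.2.1.2; omega) (by have := hq.2.1.1; omega)
    (by have := hq.2.1.2; omega)
  have E3 := quad H p.1 u3 hp.1.1 (by have := hp.1.2; omega) (by have := hr.1.1; omega)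
    (by have := hr.1.2; omega)
  have F3 := quad H p.2 v3 hp.2.1.1 (by have := hp.2.1.2; omega) (by have := hr.2.1.1; omega)
    (by have := hr.2.1.2; omega)
  have r1 : p.1 + u2 = q.1 := by omega
  have r2 : p.2 + v2 = q.2 := by omega
  have r3 : p.1 + u3 = r.1 := by omega
  have r4 : p.2 + v3 = r.2 := by omega
  rw [r1] at E2
  rw [r2] at F2
  rw [r3] at E3
  rw [r4] at F3
  set α := d L p.1 with hα
  set β := d L p.2 with hβ
  have hβg : g ≤ β := H.first p.2 hp.2.1.1 (by have := hp.2.1.2; omega)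
  have ha := H.ha
  -- `u (u-1)` bounds
  have sq : ∀ u : ℤ, |(u : ℝ)| ≤ l → (0 : ℝ) ≤ u * (u - 1) ∧ (u : ℝ) * (u - 1) ≤ 2 * l ^ 2 := by
    intro u hu
    have h1 : (0 : ℤ) ≤ u * (u - 1) := by
      rcases le_or_gt u 0 with h | h
      · nlinarith
      · nlinarith
    have h2 : u * (u - 1) ≤ 2 * u ^ 2 := by nlinarith [sq_nonneg (u + 1), sq_nonneg u,
      (by rcases le_or_gt 0 u with h | h
          · nlinarith
          · nlinarith [mul_nonneg_of_nonpos_of_nonpos (by omega : u ≤ 0) (by omega : u + 1 ≤ 0)] :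
        0 ≤ u ^ 2 + u)]
    have h1' : (0 : ℝ) ≤ u * (u - 1) := by exact_mod_cast h1
    have h2' : (u : ℝ) * (u - 1) ≤ 2 * u ^ 2 := by exact_mod_cast h2
    have h3 : (u : ℝ) ^ 2 ≤ l ^ 2 := by
      rw [← sq_abs]; exact pow_le_pow_left₀ (abs_nonneg _) hu 2
    exact ⟨h1', by linarith⟩
  have x2 := sq u2 b1
  have y2 := sq v2 b2
  have x3 := sq u3 b3
  have y3 := sq v3 b4
  have pl := hp.2.2.1
  have pu := hp.2.2.2
  have ql := hq.2.2.1
  have qu := hq.2.2.2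
  have rl := hr.2.2.1
  have ru := hr.2.2.2
  set e2 : ℝ := u2 * α + v2 * β with he2
  set e3 : ℝ := u3 * α + v3 * β with he3
  have k2 : |e2| ≤ 1 + 2 * A * l ^ 2 := by
    have w1 := mul_nonneg ha.le x2.1
    have w2 := mul_nonneg ha.le y2.1
    have w3 := mul_le_mul_of_nonneg_left x2.2 hA
    have w4 := mul_le_mul_of_nonneg_left y2.2 hA
    have w5 : 0 ≤ A * l ^ 2 := by positivity
    rw [abs_le]
    constructor
    · linarith [E2.2, F2.2]
    · linarith [E2.1, F2.1]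
  have k3 : |e3| ≤ 1 + 2 * A * l ^ 2 := by
    have w1 := mul_nonneg ha.le x3.1
    have w2 := mul_nonneg ha.le y3.1
    have w3 := mul_le_mul_of_nonneg_left x3.2 hA
    have w4 := mul_le_mul_of_nonneg_left y3.2 hA
    have w5 : 0 ≤ A * l ^ 2 := by positivity
    rw [abs_le]
    constructor
    · linarith [E3.2, F3.2]
    · linarith [E3.1, F3.1]
  have hdet : β * ((u2 : ℝ) * v3 - u3 * v2) = u2 * e3 - u3 * e2 := by
    rw [he2, he3]; ring
  have hab : |β * ((u2 : ℝ) * v3 - u3 * v2)| ≤ 2 * l * (1 + 2 * A * l ^ 2) := by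
    rw [hdet]
    calc |(u2 : ℝ) * e3 - u3 * e2| ≤ |(u2 : ℝ) * e3| + |(u3 : ℝ) * e2| := abs_sub _ _
      _ = |(u2 : ℝ)| * |e3| + |(u3 : ℝ)| * |e2| := by rw [abs_mul, abs_mul]
      _ ≤ l * (1 + 2 * A * l ^ 2) + l * (1 + 2 * A * l ^ 2) := by
          gcongr
      _ = _ := by ring
  have hβ0 : 0 < β := by have := H.hg; linarith
  rw [abs_mul, abs_of_pos hβ0] at hab
  have hlt : |(u2 : ℝ) * v3 - u3 * v2| < 1 := by
    by_contra hcon
    push Not at hcon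
    have : β * 1 ≤ β * |(u2 : ℝ) * v3 - u3 * v2| := mul_le_mul_of_nonneg_left hcon hβ0.le
    linarith
  have hz : |(u2 * v3 - u3 * v2 : ℤ)| < 1 := by exact_mod_cast hlt
  have := Int.abs_lt_one_iff.1 hz
  omega

/-- window count -/
lemma window_card (H : Conv L N a A g) {b : ℝ} {l : ℝ} (hl : 0 ≤ l) (hA : 0 ≤ A)
    (hsmall : 2 * l * (1 + 2 * A * l ^ 2) < g) (T : Finset (ℤ × ℤ))
    (hT : ∀ p ∈ T, Band L N b p)
    (hw : ∀ p ∈ T, ∀ q ∈ T, (((q.1 - q.2) - (p.1 - p.2) : ℤ) : ℝ) ≤ l) :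
    (T.card : ℝ) ≤ 2 * (√(4 / a) + 1) := by
  classical
  rcases T.eq_empty_or_nonempty with rfl | hne
  · simp; positivity
  obtain ⟨P, hP, hPmin⟩ := Finset.exists_min_image T (fun p => p.1) hne
  obtain ⟨Q, hQ, hQmax⟩ := Finset.exists_max_image T (fun p => p.1) hne
  set K : ℕ := ⌊√(4 / a)⌋₊ with hK
  -- close in both coordinates
  have hclose : ∀ p ∈ T, ∀ q ∈ T, p.1 ≤ q.1 →
      |((q.1 - p.1 : ℤ) : ℝ)| ≤ l ∧ |((q.2 - p.2 : ℤ) : ℝ)| ≤ l := by
    intro p hp q hq h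
    have h2 : q.2 ≤ p.2 := by
      rcases h.lt_or_eq with h' | h'
      · exact (band_opp H (hT p hp) (hT q hq) h').le
      · rw [band_fst_inj H (hT p hp) (hT q hq) h']
    have h3 := hw p hp q hq
    have i1 : (0 : ℝ) ≤ ((q.1 - p.1 : ℤ) : ℝ) := by exact_mod_cast (by omega : 0 ≤ q.1 - p.1)
    have i2 : ((q.2 - p.2 : ℤ) : ℝ) ≤ 0 := by exact_mod_cast (by omega : q.2 - p.2 ≤ 0)
    have i3 : ((((q.1 - q.2) - (p.1 - p.2) : ℤ)) : ℝ) =
        ((q.1 - p.1 : ℤ) : ℝ) - ((q.2 - p.2 : ℤ) : ℝ) := by push_cast; ring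
    rw [i3] at h3
    rw [abs_of_nonneg i1, abs_of_nonpos i2]
    constructor <;> linarith
  have hclose' : ∀ p ∈ T, ∀ q ∈ T,
      |((q.1 - p.1 : ℤ) : ℝ)| ≤ l ∧ |((q.2 - p.2 : ℤ) : ℝ)| ≤ l := by
    intro p hp q hq
    rcases le_total p.1 q.1 with h | h
    · exact hclose p hp q hq h
    · have := hclose q hq p hp h
      have e1 : ((q.1 - p.1 : ℤ) : ℝ) = - ((p.1 - q.1 : ℤ) : ℝ) := by push_cast; ring
      have e2 : ((q.2 - p.2 : ℤ) : ℝ) = - ((p.2 - q.2 : ℤ) : ℝ) := by push_cast; ring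
      rw [e1, e2, abs_neg, abs_neg]
      exact this
  have hsub : T.image (fun p => p.1) ⊆
      Finset.Icc P.1 (P.1 + K) ∪ Finset.Icc (Q.1 - K) Q.1 := by
    intro x hx
    obtain ⟨q, hq, rfl⟩ := Finset.mem_image.1 hx
    have m1 := hPmin q hq
    have m2 := hQmax q hq
    rw [Finset.mem_union, Finset.mem_Icc, Finset.mem_Icc]
    by_contra hcon
    push Not at hcon
    have n1 : P.1 + K < q.1 := hcon.1 m1
    have n2 : q.1 < Q.1 - K := by
      by_contra h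
      push Not at h
      have := hcon.2 h
      omega
    have lt1 : P.1 < q.1 := by omega
    have lt2 : q.1 < Q.1 := by omega
    have c1 := hclose' q hq P hP
    have c2 := hclose' q hq Q hQ
    have hdet := band_det H hl hA hsmall (hT q hq) (hT P hP) (hT Q hQ) c1.1 c1.2 c2.1 c2.2
    have hcol := band_col H (hT P hP) (hT q hq) (hT Q hQ) lt1 lt2 hdet
    have f1 : √(4 / a) < ((q.1 - P.1 : ℤ) : ℝ) := by
      have h1 : √(4 / a) < K + 1 := Nat.lt_floor_add_one _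
      have h2 : (K : ℤ) + 1 ≤ q.1 - P.1 := by omega
      have h3 : (K : ℝ) + 1 ≤ ((q.1 - P.1 : ℤ) : ℝ) := by exact_mod_cast h2
      linarith
    have f2 : √(4 / a) < ((Q.1 - q.1 : ℤ) : ℝ) := by
      have h1 : √(4 / a) < K + 1 := Nat.lt_floor_add_one _
      have h2 : (K : ℤ) + 1 ≤ Q.1 - q.1 := by omega
      have h3 : (K : ℝ) + 1 ≤ ((Q.1 - q.1 : ℤ) : ℝ) := by exact_mod_cast h2
      linarith
    have ha := H.ha
    have h0 := Real.sqrt_nonneg (4 / a)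
    have f3 : 4 / a < ((q.1 - P.1 : ℤ) : ℝ) * ((Q.1 - q.1 : ℤ) : ℝ) := by
      have : √(4 / a) * √(4 / a) = 4 / a := Real.mul_self_sqrt (by positivity)
      rw [← this]
      exact mul_lt_mul'' f1 f2 h0 h0
    have f4 : 4 < a * (((q.1 - P.1 : ℤ) : ℝ) * ((Q.1 - q.1 : ℤ) : ℝ)) := by
      rw [div_lt_iff₀ ha] at f3
      linarith
    linarith
  have hinj : (T.image (fun p => p.1)).card = T.card := by
    apply Finset.card_image_of_injOn
    intro p hp q hq h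
    exact band_fst_inj H (hT p hp) (hT q hq) h
  have hcard : T.card ≤ (K + 1) + (K + 1) := by
    rw [← hinj]
    refine (Finset.card_le_card hsub).trans ((Finset.card_union_le _ _).trans ?_)
    rw [Int.card_Icc, Int.card_Icc]
    omega
  have hKle : (K : ℝ) ≤ √(4 / a) := Nat.floor_le (Real.sqrt_nonneg _)
  have : (T.card : ℝ) ≤ (K + 1) + (K + 1) := by exact_mod_cast hcard
  linarith

end Pool.Agent.Helper548.DR
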