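import Pool.Agent.Helper548.DR.C3

namespace Pool.Agent.Helper548.DR

variable {L : ℤ → ℝ} {N : ℤ} {a A g : ℝ}

lemma sq_bd (u : ℤ) : (0 : ℝ) ≤ u * (u - 1) ∧ (u : ℝ) * (u - 1) ≤ 2 * u ^ 2 := by
  have h1 : (0 : ℤ) ≤ u * (u - 1) := by
    rcases le_or_gt u 0 with h | h <;> nlinarith
  have h2 : u * (u - 1) ≤ 2 * u ^ 2 := by
    have : 0 ≤ u ^ 2 + u := by
      rcases le_or_gt 0 u with h | h
      · positivity
      · nlinarith [mul_nonneg_of_nonpos_of_nonpos (by omega : u ≤ 0) (by omega : u + 1 ≤ 0)]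
    nlinarith
  exact ⟨by exact_mod_cast h1, by exact_mod_cast h2⟩

lemma lin_bound (H : Conv L N a A g) {b : ℝ} (hA : 0 ≤ A) {p q : ℤ × ℤ}
    (hp : Band L N b p) (hq : Band L N b q) :
    |((q.1 - p.1 : ℤ) : ℝ) * d L p.1 + ((q.2 - p.2 : ℤ) : ℝ) * d L p.2| ≤
      1 + A * (((q.1 - p.1 : ℤ) : ℝ) ^ 2 + ((q.2 - p.2 : ℤ) : ℝ) ^ 2) := by
  set u : ℤ := q.1 - p.1 with hu
  set v : ℤ := q.2 - p.2 with hv
  have E := quad H p.1 u hp.1.1 (by have := hp.1.2; omega) (by have := hq.1.1; omega)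
    (by have := hq.1.2; omega)
  have F := quad H p.2 v hp.2.1.1 (by have := hp.2.1.2; omega) (by have := hq.2.1.1; omega)
    (by have := hq.2.1.2; omega)
  have r1 : p.1 + u = q.1 := by omega
  have r2 : p.2 + v = q.2 := by omega
  rw [r1] at E
  rw [r2] at F
  have ha := H.ha
  have x := sq_bd u
  have y := sq_bd v
  have pl := hp.2.2.1
  have pu := hp.2.2.2
  have ql := hq.2.2.1
  have qu := hq.2.2.2
  have w1 := mul_nonneg ha.le x.1
  have w2 := mul_nonneg ha.le y.1
  have w3 := mul_le_mul_of_nonneg_left x.2 hA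
  have w4 := mul_le_mul_of_nonneg_left y.2 hA
  have w5 := mul_nonneg hA (sq_nonneg (u:ℝ))
  have w6 := mul_nonneg hA (sq_nonneg (v:ℝ))
  rw [abs_le]
  constructor
  · linarith [E.2, F.2]
  · linarith [E.1, F.1]

lemma d_lip (H : Conv L N a A g) (hA : 0 ≤ A) (x y : ℤ) (h0 : N ≤ x) (h1 : x ≤ 2 * N)
    (h2 : N ≤ y) (h3 : y ≤ 2 * N) :
    |d L y - d L x| ≤ A * |((y - x : ℤ) : ℝ)| := by
  have key : ∀ x y : ℤ, N ≤ x → y ≤ 2 * N → x ≤ y → |d L y - d L x| ≤ A * |((y - x : ℤ) : ℝ)| := by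
    intro x y h0 h3 h
    obtain ⟨k, rfl⟩ := Int.le.dest h
    have hd := d_diff H x k h0 (by omega)
    have ha := H.ha
    have e : ((x + k - x : ℤ) : ℝ) = k := by push_cast; ring
    rw [e, Nat.abs_cast, abs_le]
    have hk : (0:ℝ) ≤ k := Nat.cast_nonneg k
    have t1 := mul_nonneg ha.le hk
    have t2 := mul_nonneg hA hk
    constructor <;> linarith [hd.1, hd.2]
  rcases le_total x y with h | h
  · exact key x y h0 h3 h
  · have := key y x h2 h1 h
    rw [abs_sub_comm]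
    refine this.trans (le_of_eq ?_)
    congr 1
    rw [← abs_neg]; congr 1; push_cast; ring

lemma line_count (H : Conv L N a A g) {b : ℝ} (m n : ℤ) (hn : 0 < n) (hcop : IsCoprime n m) (l : ℤ)
    (T : Finset (ℤ × ℤ)) (hT : ∀ p ∈ T, Band L N b p) (hl : ∀ p ∈ T, n * p.2 + m * p.1 = l) :
    T.card ≤ 2 * (⌊√(4 / a) / n⌋₊ + 1) := by
  classical
  rcases T.eq_empty_or_nonempty with rfl | hne
  · simp
  obtain ⟨P, hP, hPmin⟩ := Finset.exists_min_image T (fun p => p.1) hne
  obtain ⟨Q, hQ, hQmax⟩ := Finset.exists_max_image T (fun p => p.1) hne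
  set K : ℕ := ⌊√(4 / a) / n⌋₊ with hK
  have hdvd : ∀ p ∈ T, n ∣ p.1 - P.1 := by
    intro p hp
    have e1 := hl p hp
    have e2 := hl P hP
    have : n ∣ m * (p.1 - P.1) := ⟨P.2 - p.2, by linear_combination e1 - e2⟩
    exact hcop.dvd_of_dvd_mul_left this
  choose! s hs using hdvd
  have hn' : (0 : ℝ) < n := by exact_mod_cast hn
  have hsub : T.image s ⊆ Finset.Icc 0 (K : ℤ) ∪ Finset.Icc (s Q - K) (s Q) := by
    intro y hy
    obtain ⟨x, hx, rfl⟩ := Finset.mem_image.1 hy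
    have m1 : P.1 ≤ x.1 := hPmin x hx
    have m2 : x.1 ≤ Q.1 := hQmax x hx
    have e1 := hs x hx
    have e2 := hs Q hQ
    have g1 : 0 ≤ s x := by
      by_contra hc
      push Not at hc
      have : n * s x < 0 := mul_neg_of_pos_of_neg hn hc
      omega
    have g2 : s x ≤ s Q := by
      by_contra hc
      push Not at hc
      have : n * s Q < n * s x := mul_lt_mul_of_pos_left hc hn
      omega
    rw [Finset.mem_union, Finset.mem_Icc, Finset.mem_Icc]
    by_contra hcon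
    push Not at hcon
    have n1 : (K : ℤ) < s x := hcon.1 g1
    have n2 : s x < s Q - K := by
      by_contra h
      push Not at h
      have := hcon.2 h
      omega
    have big : ∀ t : ℤ, (K : ℤ) < t → √(4 / a) < ((n * t : ℤ) : ℝ) := by
      intro t ht
      have h1 : √(4 / a) / n < K + 1 := Nat.lt_floor_add_one _
      have h3 : (K : ℝ) + 1 ≤ (t : ℝ) := by exact_mod_cast ht
      rw [div_lt_iff₀ hn'] at h1
      push_cast
      nlinarith
    have f1 := big (s x) n1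
    have f2 := big (s Q - s x) (by omega)
    have a1 : n * s x = x.1 - P.1 := e1.symm
    have a2 : n * (s Q - s x) = Q.1 - x.1 := by linear_combination e1 - e2
    rw [a1] at f1
    rw [a2] at f2
    have h0 := Real.sqrt_nonneg (4 / a)
    have lt1 : P.1 < x.1 := by
      have : (0 : ℝ) < ((x.1 - P.1 : ℤ) : ℝ) := lt_of_le_of_lt h0 f1
      have : (0 : ℤ) < x.1 - P.1 := by exact_mod_cast this
      omega
    have lt2 : x.1 < Q.1 := by
      have : (0 : ℝ) < ((Q.1 - x.1 : ℤ) : ℝ) := lt_of_le_of_lt h0 f2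
      have : (0 : ℤ) < Q.1 - x.1 := by exact_mod_cast this
      omega
    have lP := hl P hP
    have lQ := hl Q hQ
    have lx := hl x hx
    have hdet : (P.1 - x.1) * (Q.2 - x.2) = (Q.1 - x.1) * (P.2 - x.2) := by
      apply mul_left_cancel₀ hn.ne'
      linear_combination (P.1 - x.1) * (lQ - lx) - (Q.1 - x.1) * (lP - lx)
    have hcol := band_col H (hT P hP) (hT x hx) (hT Q hQ) lt1 lt2 hdet
    have ha := H.ha
    have f3 : 4 / a < ((x.1 - P.1 : ℤ) : ℝ) * ((Q.1 - x.1 : ℤ) : ℝ) := by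
      have : √(4 / a) * √(4 / a) = 4 / a := Real.mul_self_sqrt (by positivity)
      rw [← this]
      exact mul_lt_mul'' f1 f2 h0 h0
    have f4 : 4 < a * (((x.1 - P.1 : ℤ) : ℝ) * ((Q.1 - x.1 : ℤ) : ℝ)) := by
      rw [div_lt_iff₀ ha] at f3
      linarith
    linarith
  have hinj : (T.image s).card = T.card := by
    apply Finset.card_image_of_injOn
    intro p hp q hq h
    have e1 := hs p hp
    have e2 := hs q hq
    have h' : s p = s q := h
    rw [h'] at e1
    exact band_fst_inj H (hT p hp) (hT q hq) (by omega)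
  rw [← hinj]
  refine (Finset.card_le_card hsub).trans ((Finset.card_union_le _ _).trans ?_)
  rw [Int.card_Icc, Int.card_Icc]
  omega

end Pool.Agent.Helper548.DR
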