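import Pool.Agent.Helper548.DR.W2a

namespace Pool.Agent.Helper548.DR

variable {L : ℤ → ℝ} {N : ℤ} {a A g : ℝ}

lemma close_of_window (H : Conv L N a A g) {b : ℝ} {l : ℝ} (T : Finset (ℤ × ℤ))
    (hT : ∀ p ∈ T, Band L N b p)
    (hw : ∀ p ∈ T, ∀ q ∈ T, (((q.1 - q.2) - (p.1 - p.2) : ℤ) : ℝ) ≤ l) :
    ∀ p ∈ T, ∀ q ∈ T, |((q.1 - p.1 : ℤ) : ℝ)| ≤ l ∧ |((q.2 - p.2 : ℤ) : ℝ)| ≤ l := by
  have hclose : ∀ p ∈ T, ∀ q ∈ T, p.1 ≤ q.1 →
      |((q.1 - p.1 : ℤ) : ℝ)| ≤ l ∧ |((q.2 - p.2 : ℤ) : ℝ)| ≤ l := by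
    intro p hp q hq h
    have h2 : q.2 ≤ p.2 := by
      rcases h.lt_or_eq with h' | h'
      · exact (band_opp H (hT p hp) (hT q hq) h').le
      · rw [band_fst_inj H (hT p hp) (hT q hq) h']
    have h3 := hw p hp q hq
    have i1 : (0 : ℝ) ≤ ((q.1 - p.1 : ℤ) : ℝ) := by exact_mod_cast (by omega : 0 ≤ q.1 - p.1)
    have i2 : ((q.2 - p.2 : ℤ) : ℝ) ≤ 0 := by exact_mod_cast (by omega : q.2 - p.2 ≤ 0)
    have i3 : ((((q.1 - q.2) - (p.1 - p.2) : ℤ)) : ℝ) =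
        ((q.1 - p.1 : ℤ) : ℝ) - ((q.2 - p.2 : ℤ) : ℝ) := by push_cast; ring
    rw [i3] at h3
    rw [abs_of_nonneg i1, abs_of_nonpos i2]
    constructor <;> linarith
  intro p hp q hq
  rcases le_total p.1 q.1 with h | h
  · exact hclose p hp q hq h
  · have := hclose q hq p hp h
    have e1 : ((q.1 - p.1 : ℤ) : ℝ) = - ((p.1 - q.1 : ℤ) : ℝ) := by push_cast; ring
    have e2 : ((q.2 - p.2 : ℤ) : ℝ) = - ((p.2 - q.2 : ℤ) : ℝ) := by push_cast; ring
    rw [e1, e2, abs_neg, abs_neg]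
    exact this

lemma window2_core (H : Conv L N a A g) {b : ℝ} {R : ℝ} (hR : 1 ≤ R) (hA0 : 0 ≤ A)
    (hA : A * R ^ 2 ≤ 4) (hg : R ^ 2 ≤ g) (ha : √(4 / a) ≤ 9 * R) (T : Finset (ℤ × ℤ))
    (hT : ∀ p ∈ T, Band L N b p) (hord : ∀ p ∈ T, p.1 ≤ p.2)
    (hw : ∀ p ∈ T, ∀ q ∈ T, (((q.1 - q.2) - (p.1 - p.2) : ℤ) : ℝ) ≤ R ^ 2) :
    (T.card : ℝ) ≤ 2000 * R := by
  classical
  rcases T.eq_empty_or_nonempty with rfl | ⟨P, hP⟩
  · simp; linarith
  have hR2 : (1 : ℝ) ≤ R ^ 2 := by nlinarith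
  have hclose := close_of_window H T hT hw
  have bP := hT P hP
  set α := d L P.1 with hα
  set β := d L P.2 with hβ
  have hβg : R ^ 2 ≤ β := hg.trans (H.first P.2 bP.2.1.1 (by have := bP.2.1.2; omega))
  have hαg : R ^ 2 ≤ α := hg.trans (H.first P.1 bP.1.1 (by have := bP.1.2; omega))
  have hαβ : α ≤ β := by
    obtain ⟨k, hk⟩ := Int.le.dest (hord P hP)
    have := (d_diff H P.1 k bP.1.1 (by have := bP.2.1.2; omega)).1
    rw [hk] at this
    have h0 := mul_nonneg H.ha.le (Nat.cast_nonneg (α := ℝ) k)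
    linarith
  have hβ0 : 0 < β := by linarith
  set γ := α / β with hγ
  have hγ0 : 0 ≤ γ := div_nonneg (by linarith) hβ0.le
  have hγ1 : γ ≤ 1 := (div_le_one hβ0).2 hαβ
  have hγβ : γ * β = α := by rw [hγ]; field_simp
  have hfl : 0 < ⌊R⌋₊ := Nat.floor_pos.2 hR
  obtain ⟨ρ, hρ1, hρ2⟩ := Real.exists_rat_abs_sub_le_and_den_le γ hfl
  set n : ℤ := (ρ.den : ℤ) with hn
  set m : ℤ := ρ.num with hm
  have hn0 : 0 < n := by rw [hn]; exact_mod_cast ρ.pos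
  have hn0r : (0 : ℝ) < n := by exact_mod_cast hn0
  have hn1r : (1 : ℝ) ≤ n := by exact_mod_cast hn0
  have hnR : (n : ℝ) ≤ R := by
    have h1 : ((ρ.den : ℕ) : ℝ) ≤ (⌊R⌋₊ : ℝ) := by exact_mod_cast hρ2
    have h2 : (⌊R⌋₊ : ℝ) ≤ R := Nat.floor_le (by linarith)
    have h3 : (n : ℝ) = ((ρ.den : ℕ) : ℝ) := by rw [hn]; push_cast; rfl
    rw [h3]; linarith
  have hcop : IsCoprime n m := by
    rw [hn, hm]
    have := ρ.reduced
    exact (Int.isCoprime_iff_gcd_eq_one.2 (by rw [Int.gcd_eq_natAbs]; simpa using this)).symm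
  set δ : ℝ := n * γ - m with hδ
  have hδR : |δ| * R ≤ 1 := by
    have h1 : δ = n * (γ - ρ) := by
      have h3 : (n : ℝ) = ((ρ.den : ℕ) : ℝ) := by rw [hn]; push_cast; rfl
      have h4 : (m : ℝ) = (n : ℝ) * (ρ : ℝ) := by
        rw [h3, hm]
        have : (ρ : ℝ) = (ρ.num : ℝ) / (ρ.den : ℝ) := Rat.cast_def ρ
        rw [this]
        have : (ρ.den : ℝ) ≠ 0 := by exact_mod_cast ρ.den_ne_zero
        field_simp
      rw [hδ, h4]; ring
    have h3 : (n : ℝ) = ((ρ.den : ℕ) : ℝ) := by rw [hn]; push_cast; rfl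
    have h5 : |δ| ≤ 1 / ((⌊R⌋₊ : ℝ) + 1) := by
      rw [h1, abs_mul, abs_of_pos hn0r]
      calc (n : ℝ) * |γ - ρ| ≤ n * (1 / (((⌊R⌋₊ : ℝ) + 1) * ρ.den)) :=
            mul_le_mul_of_nonneg_left hρ1 hn0r.le
        _ = 1 / ((⌊R⌋₊ : ℝ) + 1) := by
            rw [← h3]; field_simp
    have h6 : R < (⌊R⌋₊ : ℝ) + 1 := Nat.lt_floor_add_one _
    have h7 : (0:ℝ) < (⌊R⌋₊ : ℝ) + 1 := by positivity
    rw [le_div_iff₀ h7] at h5
    have := mul_le_mul_of_nonneg_left h6.le (abs_nonneg δ)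
    linarith
  have hδ1 : |δ| ≤ 1 := by nlinarith [abs_nonneg δ]
  have hδR2 : |δ| * R ^ 2 ≤ R := by
    have := mul_le_mul_of_nonneg_right hδR (by linarith : (0:ℝ) ≤ R)
    nlinarith
  have hmn : |(m : ℝ)| ≤ 2 * n := by
    have h1 : (m : ℝ) = n * γ - δ := by rw [hδ]; ring
    rw [h1]
    calc |(n : ℝ) * γ - δ| ≤ |(n : ℝ) * γ| + |δ| := abs_sub _ _
      _ = n * γ + |δ| := by rw [abs_of_nonneg (mul_nonneg hn0r.le hγ0)]
      _ ≤ n * 1 + 1 := by
          have := mul_le_mul_of_nonneg_left hγ1 hn0r.le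
          linarith
      _ ≤ _ := by linarith
  -- the line index
  set f : ℤ × ℤ → ℤ := fun p => n * p.2 + m * p.1 with hf
  have hv : ∀ p ∈ T, |((p.2 - P.2 : ℤ) : ℝ) + γ * ((p.1 - P.1 : ℤ) : ℝ)| ≤ 9 := by
    intro p hp
    have h1 := lin_bound H hA0 bP (hT p hp)
    obtain ⟨c1, c2⟩ := hclose P hP p hp
    set u : ℝ := ((p.1 - P.1 : ℤ) : ℝ)
    set v : ℝ := ((p.2 - P.2 : ℤ) : ℝ)
    have s1 : u ^ 2 ≤ (R ^ 2) ^ 2 := by
      rw [← sq_abs]; exact pow_le_pow_left₀ (abs_nonneg _) c1 2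
    have s2 : v ^ 2 ≤ (R ^ 2) ^ 2 := by
      rw [← sq_abs]; exact pow_le_pow_left₀ (abs_nonneg _) c2 2
    have s3 : A * (u ^ 2 + v ^ 2) ≤ 8 * R ^ 2 := by
      calc A * (u ^ 2 + v ^ 2) ≤ A * ((R ^ 2) ^ 2 + (R ^ 2) ^ 2) :=
            mul_le_mul_of_nonneg_left (by linarith) hA0
        _ = 2 * ((A * R ^ 2) * R ^ 2) := by ring
        _ ≤ 2 * (4 * R ^ 2) := by
            have := mul_le_mul_of_nonneg_right hA (by linarith : (0:ℝ) ≤ R ^ 2)
            linarith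
        _ = _ := by ring
    have s4 : u * α + v * β = β * (v + γ * u) := by rw [← hγβ]; ring
    rw [s4, abs_mul, abs_of_pos hβ0] at h1
    by_contra hcon
    push Not at hcon
    have : β * 9 < β * |v + γ * u| := mul_lt_mul_of_pos_left hcon hβ0
    linarith
  have hfb : ∀ p ∈ T, |((f p - f P : ℤ) : ℝ)| ≤ 9 * n + |δ| * R ^ 2 := by
    intro p hp
    have h1 := hv p hp
    obtain ⟨c1, c2⟩ := hclose P hP p hp
    have e : ((f p - f P : ℤ) : ℝ) = n * (((p.2 - P.2 : ℤ) : ℝ) + γ * ((p.1 - P.1 : ℤ) : ℝ))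
        - δ * ((p.1 - P.1 : ℤ) : ℝ) := by
      rw [hf, hδ]; push_cast; ring
    rw [e]
    refine (abs_sub _ _).trans ?_
    rw [abs_mul, abs_mul, abs_of_pos hn0r]
    have := mul_le_mul_of_nonneg_left h1 hn0r.le
    have := mul_le_mul_of_nonneg_left c1 (abs_nonneg δ)
    linarith
  set M : ℝ := 9 * n + |δ| * R ^ 2 with hM
  have hM0 : 0 ≤ M := by positivity
  have himg : ((T.image f).card : ℝ) ≤ 2 * M + 1 := by
    have hsub : T.image f ⊆ Finset.Icc (f P - ⌊M⌋₊) (f P + ⌊M⌋₊) := by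
      intro y hy
      obtain ⟨x, hx, rfl⟩ := Finset.mem_image.1 hy
      have h1 := hfb x hx
      have h2 : ((|f x - f P| : ℤ) : ℝ) ≤ M := by rw [Int.cast_abs]; exact h1
      have h3 : (((f x - f P).natAbs : ℕ) : ℝ) ≤ M := by
        rw [Nat.cast_natAbs]; exact h2
      have h4 : (f x - f P).natAbs ≤ ⌊M⌋₊ := Nat.le_floor h3
      rw [Finset.mem_Icc]
      omega
    have h1 : (T.image f).card ≤ 2 * ⌊M⌋₊ + 1 := by
      refine (Finset.card_le_card hsub).trans ?_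
      rw [Int.card_Icc]; omega
    have h2 : ((T.image f).card : ℝ) ≤ 2 * ⌊M⌋₊ + 1 := by exact_mod_cast h1
    have h3 : (⌊M⌋₊ : ℝ) ≤ M := Nat.floor_le hM0
    linarith
  by_cases hinj : Set.InjOn f T
  · have h1 : (T.image f).card = T.card := Finset.card_image_of_injOn hinj
    rw [h1] at himg
    linarith
  · -- two points on a line
    rw [Set.InjOn] at hinj
    push Not at hinj
    obtain ⟨x, hx, y, hy, hxy, hne⟩ := hinj
    have hx' : x ∈ T := hx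
    have hy' : y ∈ T := hy
    have bx := hT x hx'
    have bY := hT y hy'
    have e0 : n * x.2 + m * x.1 = n * y.2 + m * y.1 := hxy
    have hdvd : n ∣ y.1 - x.1 := by
      have : n ∣ m * (y.1 - x.1) := ⟨x.2 - y.2, by linear_combination -e0⟩
      exact hcop.dvd_of_dvd_mul_left this
    obtain ⟨t, ht⟩ := hdvd
    have ht2 : y.2 - x.2 = - (m * t) := by
      apply mul_left_cancel₀ hn0.ne'
      linear_combination -e0 - m * ht
    have ht0 : t ≠ 0 := by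
      rintro rfl
      apply hne
      exact band_fst_inj H bx bY (by omega)
    have ht1 : (1 : ℝ) ≤ |(t : ℝ)| := by
      have : (1 : ℤ) ≤ |t| := Int.one_le_abs ht0
      exact_mod_cast this
    obtain ⟨c1, c2⟩ := hclose x hx' y hy'
    have hlin := lin_bound H hA0 bx bY
    rw [ht] at c1
    rw [ht2] at c2
    rw [ht, ht2] at hlin
    push_cast at c1 c2 hlin
    rw [abs_mul, abs_of_pos hn0r] at c1
    rw [abs_neg, abs_mul] at c2
    have q1 : A * (((n : ℝ) * t) ^ 2 + (-((m : ℝ) * t)) ^ 2) ≤ 4 * (n + |(m:ℝ)|) * |(t:ℝ)| := by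
      have r1 : ((n : ℝ) * t) ^ 2 ≤ (R ^ 2) * (n * |(t:ℝ)|) := by
        have : ((n : ℝ) * t) ^ 2 = (n * |(t:ℝ)|) * (n * |(t:ℝ)|) := by
          rw [← sq, mul_pow, mul_pow, sq_abs]
        rw [this]
        exact mul_le_mul_of_nonneg_right c1 (by positivity)
      have r2 : (-((m : ℝ) * t)) ^ 2 ≤ (R ^ 2) * (|(m:ℝ)| * |(t:ℝ)|) := by
        have : (-((m : ℝ) * t)) ^ 2 = (|(m:ℝ)| * |(t:ℝ)|) * (|(m:ℝ)| * |(t:ℝ)|) := by
          rw [← sq, neg_sq, mul_pow, mul_pow, sq_abs, sq_abs]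
        rw [this]
        exact mul_le_mul_of_nonneg_right c2 (by positivity)
      calc A * (((n : ℝ) * t) ^ 2 + (-((m : ℝ) * t)) ^ 2)
          ≤ A * ((R ^ 2) * (n * |(t:ℝ)|) + (R ^ 2) * (|(m:ℝ)| * |(t:ℝ)|)) :=
            mul_le_mul_of_nonneg_left (by linarith) hA0
        _ = (A * R ^ 2) * ((n + |(m:ℝ)|) * |(t:ℝ)|) := by ring
        _ ≤ 4 * ((n + |(m:ℝ)|) * |(t:ℝ)|) := mul_le_mul_of_nonneg_right hA (by positivity)
        _ = _ := by ring
    have q2 : |(n : ℝ) * d L x.1 - m * d L x.2| ≤ 1 + 4 * (n + |(m:ℝ)|) := by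
      have e : (n : ℝ) * t * d L x.1 + -((m : ℝ) * t) * d L x.2 =
          t * ((n : ℝ) * d L x.1 - m * d L x.2) := by ring
      rw [e, abs_mul] at hlin
      have h1 : |(t:ℝ)| * |(n : ℝ) * d L x.1 - m * d L x.2| ≤
          |(t:ℝ)| * (1 + 4 * (n + |(m:ℝ)|)) := by
        have : (1 : ℝ) ≤ |(t:ℝ)| * 1 := by linarith
        calc _ ≤ 1 + A * (((n : ℝ) * t) ^ 2 + (-((m : ℝ) * t)) ^ 2) := hlin
          _ ≤ |(t:ℝ)| * 1 + 4 * (n + |(m:ℝ)|) * |(t:ℝ)| := by linarith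
          _ = _ := by ring
      exact le_of_mul_le_mul_left h1 (by linarith)
    obtain ⟨p1, p2⟩ := hclose P hP x hx'
    have l1 := d_lip H hA0 P.1 x.1 bP.1.1 (by have := bP.1.2; omega) bx.1.1 (by have := bx.1.2; omega)
    have l2 := d_lip H hA0 P.2 x.2 bP.2.1.1 (by have := bP.2.1.2; omega) bx.2.1.1
      (by have := bx.2.1.2; omega)
    have l1' : |d L x.1 - α| ≤ 4 := l1.trans ((mul_le_mul_of_nonneg_left p1 hA0).trans hA)
    have l2' : |d L x.2 - β| ≤ 4 := l2.trans ((mul_le_mul_of_nonneg_left p2 hA0).trans hA)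
    have q3 : β * |δ| ≤ 25 * n := by
      have e : β * δ = ((n : ℝ) * d L x.1 - m * d L x.2) - n * (d L x.1 - α) + m * (d L x.2 - β) := by
        rw [hδ, ← hγβ]; ring
      have h1 : |β * δ| ≤ (1 + 4 * (n + |(m:ℝ)|)) + n * 4 + |(m:ℝ)| * 4 := by
        rw [e]
        refine (abs_add_le _ _).trans ?_
        refine add_le_add ((abs_sub _ _).trans (add_le_add q2 ?_)) ?_
        · rw [abs_mul, abs_of_pos hn0r]; exact mul_le_mul_of_nonneg_left l1' hn0r.le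
        · rw [abs_mul]; exact mul_le_mul_of_nonneg_left l2' (abs_nonneg _)
      rw [abs_mul, abs_of_pos hβ0] at h1
      linarith
    have q4 : |δ| * R ^ 2 ≤ 25 * n := by
      have := mul_le_mul_of_nonneg_right hβg (abs_nonneg δ)
      linarith
    have hlines : ((T.image f).card : ℝ) ≤ 69 * n := by linarith
    set K : ℕ := ⌊√(4 / a) / n⌋₊ with hK
    have hfib : T.card ≤ (2 * (K + 1)) * (T.image f).card := by
      apply Finset.card_le_mul_card_image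
      intro l hl
      apply line_count H m n hn0 hcop l
      · intro p hp; exact hT p (Finset.mem_filter.1 hp).1
      · intro p hp; exact (Finset.mem_filter.1 hp).2
    have hfib' : (T.card : ℝ) ≤ (2 * (K + 1)) * (T.image f).card := by exact_mod_cast hfib
    have hKle : (K : ℝ) ≤ √(4 / a) / n := Nat.floor_le (by positivity)
    have hKn : (K : ℝ) * n ≤ 9 * R := by
      rw [le_div_iff₀ hn0r] at hKle
      linarith
    calc (T.card : ℝ) ≤ (2 * (K + 1)) * (T.image f).card := hfib'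
      _ ≤ (2 * (K + 1)) * (69 * n) := mul_le_mul_of_nonneg_left hlines (by positivity)
      _ = 138 * (K * n + n) := by ring
      _ ≤ _ := by linarith

end Pool.Agent.Helper548.DR
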